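import Pool.Agent.helper1.SF.SpecA

set_option autoImplicit false

namespace SF

open MeasureTheory Set

theorem EDB_chi (m : ℤ) : |chi m| ≤ 1 := by
  unfold chi
  split_ifs <;> simp

theorem EDB_deriv_zero {κ : ℝ} {g : ℝ → ℝ} (hg : Pk κ g) (σ : ℝ) (h : σ < 1 + κ ∨ 1 + 8 * κ < σ) :
    deriv g σ = 0 := by
  have hz : g =ᶠ[nhds σ] fun _ => (0 : ℝ) := by
    rcases h with h | h
    · filter_upwards [gt_mem_nhds h] with z hz
      exact hg.2.2.2 z (Or.inl hz.le)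
    · filter_upwards [lt_mem_nhds h] with z hz
      exact hg.2.2.2 z (Or.inr hz.le)
  rw [hz.deriv_eq]
  simp

theorem EDB_supp {κ : ℝ} {g : ℝ → ℝ} (hg : Pk κ g) (σ : ℝ) (h : deriv g σ ≠ 0) :
    1 + κ ≤ σ ∧ σ ≤ 1 + 8 * κ := by
  constructor
  · by_contra hc
    exact h (EDB_deriv_zero hg σ (Or.inl (lt_of_not_ge hc)))
  · by_contra hc
    exact h (EDB_deriv_zero hg σ (Or.inr (lt_of_not_ge hc)))

theorem EDB_pg {κ : ℝ} {g : ℝ → ℝ} (hg : Pk κ g) : Pg g :=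
  ⟨hg.1, fun a ha => hg.2.2.2 a (Or.inr (by linarith [hg.2.2.1]))⟩

theorem EDB_cderiv {g : ℝ → ℝ} (hg : Prof g) : Continuous (deriv g) :=
  hg.smooth.continuous_deriv (by norm_num)

theorem EDB_quot {κ : ℝ} {g : ℝ → ℝ} (hg : Pk κ g) :
    Continuous (fun σ => deriv g σ / √(σ - 1)) := by
  have hκ := hg.2.1
  have h : (fun σ => deriv g σ / √(σ - 1)) = fun σ => deriv g σ / √(max (σ - 1) κ) := by
    funext σ
    by_cases hc : κ ≤ σ - 1
    · rw [max_eq_left hc]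
    · rw [EDB_deriv_zero hg σ (Or.inl (by linarith [lt_of_not_ge hc]))]
      simp
  rw [h]
  refine (EDB_cderiv hg.1).div (by fun_prop) ?_
  intro σ
  have : 0 < max (σ - 1) κ := lt_max_of_lt_right hκ
  exact (Real.sqrt_pos.mpr this).ne'

theorem EDB_pt (hKMM : KMM_stmt) (C1 C2 : ℝ)
    (hU : ∀ σ l l1 l2 y W : ℝ, 1 < σ → σ ≤ 2 → 1 ≤ l → 1 ≤ l1 → 1 ≤ l2 →
      0 < y → W = (σ - 1 / l ^ 2) * l ^ 2 / y ^ 2 → (l + l1 + l2) ^ 8 ≤ W →
      Summable (fun m : ℤ => |LA σ l l1 y m - LA σ l l2 y m|) ∧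
      ∑' m : ℤ, |LA σ l l1 y m - LA σ l l2 y m| ≤ C1 * (l + l1 + l2) ^ 2 / √(√W))
    (hV : ∀ σ l1 l2 δ : ℝ, 1 < σ → σ ≤ 2 → 1 ≤ l1 → 1 ≤ l2 → 0 < δ → δ ≤ 1 →
      (∀ p : ℤ, δ ≤ |p - 5 * l1| ∧ δ ≤ |p - 5 * l2|) → 5 * (σ - 1) * (1 + l1 + l2) ^ 2 < δ →
      Summable (fun m : ℤ => |LA σ 1 l1 1 m - LA σ 1 l2 1 m|) ∧
      |(∑' m : ℤ, chi m * (LA σ 1 l1 1 m - LA σ 1 l2 1 m)) - L0 l1 l2| ≤
        C2 * (1 + l1 + l2) ^ 2 * √((σ - 1) / δ))
    (hC1 : 0 < C1) (κ l1 l2 δ y0 σ : ℝ) (N : ℕ) (hκ : 0 < κ) (h1 : 1 ≤ l1) (h2 : 1 ≤ l2) (hδ : 0 < δ) (hδ1 : δ ≤ 1)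
    (hp : ∀ p : ℤ, δ ≤ |p - 5 * l1| ∧ δ ≤ |p - 5 * l2|) (hκδ : 50 * κ * (1 + l1 + l2) ^ 2 ≤ δ)
    (hy0 : 0 < y0) (hy1 : y0 ≤ 1) (hy : (1 + l1 + l2) ^ 8 * y0 ^ 2 ≤ κ)
    (hσ1 : 1 + κ ≤ σ) (hσ2 : σ ≤ 1 + 8 * κ) (hσ3 : σ ≤ 2)
    (hN1 : ∀ m : ℤ, (N : ℤ) < |m| → Km σ y0 1 l1 m = 0)
    (hN2 : ∀ m : ℤ, (N : ℤ) < |m| → Km σ y0 1 l2 m = 0) :
    |(∑' m : ℤ, chi m * Km σ y0 1 l1 m) - (∑' m : ℤ, chi m * Km σ y0 1 l2 m) +
      1 / √(σ - 1) * L0 l1 l2| ≤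
      (C1 * (1 + l1 + l2) ^ 2 * √(√(y0 ^ 2 / κ))) / √(σ - 1) + C2 * (1 + l1 + l2) ^ 2 * (1 / √δ) := by
  have hσ0 : 1 < σ := by linarith
  have hs : 0 < √(σ - 1) := Real.sqrt_pos.mpr (by linarith)
  set D := 1 + l1 + l2 with hD
  have hD0 : 1 ≤ D := by linarith
  have hy02 : 0 < y0 ^ 2 := by positivity
  obtain ⟨hA1, hA2⟩ := hU σ 1 l1 l2 y0 _ hσ0 hσ3 le_rfl h1 h2 hy0 rfl (by
    rw [← hD]
    have : (σ - 1 / 1 ^ 2) * 1 ^ 2 / y0 ^ 2 = (σ - 1) / y0 ^ 2 := by ring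
    rw [this, le_div_iff₀ hy02]
    linarith)
  obtain ⟨hB1, hB2⟩ := hV σ l1 l2 δ hσ0 hσ3 h1 h2 hδ hδ1 hp (by
    rw [← hD]
    have : 5 * (σ - 1) * D ^ 2 ≤ 40 * κ * D ^ 2 := by
      have : 0 ≤ D ^ 2 := by positivity
      nlinarith
    have h3 : 0 < κ * D ^ 2 := by positivity
    nlinarith)
  rw [← hD] at hA2 hB2
  -- the kernels
  have hK : ∀ l' : ℝ, 1 ≤ l' → ∀ m : ℤ, Km σ y0 1 l' m = 1 / √(σ - 1) * (LA σ 1 l' y0 m - LA σ 1 l' 1 m) := by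
    intro l' hl' m
    have := hKMM σ y0 1 l' m hσ0 hy0 hy1 le_rfl hl'
    simpa using this
  have hz : ∀ l' : ℝ, 1 ≤ l' → ∀ m : ℤ, Km σ y0 1 l' m = 0 → LA σ 1 l' y0 m = LA σ 1 l' 1 m := by
    intro l' hl' m h0
    rw [hK l' hl' m] at h0
    have : 1 / √(σ - 1) ≠ 0 := by positivity
    have := (mul_eq_zero.mp h0).resolve_left this
    linarith
  set A : ℤ → ℝ := fun m => LA σ 1 l1 y0 m - LA σ 1 l2 y0 m with hAd
  set B : ℤ → ℝ := fun m => LA σ 1 l1 1 m - LA σ 1 l2 1 m with hBd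
  have hsA : Summable (fun m => chi m * A m) := by
    refine Summable.of_norm_bounded hA1 ?_
    intro m
    rw [Real.norm_eq_abs, abs_mul]
    calc |chi m| * |A m| ≤ 1 * |A m| := by gcongr; exact EDB_chi m
      _ = _ := by rw [one_mul]
  have hsB : Summable (fun m => chi m * B m) := by
    refine Summable.of_norm_bounded hB1 ?_
    intro m
    rw [Real.norm_eq_abs, abs_mul]
    calc |chi m| * |B m| ≤ 1 * |B m| := by gcongr; exact EDB_chi m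
      _ = _ := by rw [one_mul]
  have hfin : ∀ l' : ℝ, (∀ m : ℤ, (N : ℤ) < |m| → Km σ y0 1 l' m = 0) →
      ∑' m : ℤ, chi m * Km σ y0 1 l' m = ∑ m ∈ Finset.Icc (-(N : ℤ)) N, chi m * Km σ y0 1 l' m := by
    intro l' hl'
    refine tsum_eq_sum ?_
    intro m hm
    rw [hl' m, mul_zero]
    rw [Finset.mem_Icc, not_and_or] at hm
    rcases hm with hm | hm
    · have := neg_le_abs m
      omega
    · have := le_abs_self m
      omega
  have hdiff : (∑' m : ℤ, chi m * Km σ y0 1 l1 m) - (∑' m : ℤ, chi m * Km σ y0 1 l2 m) =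
      1 / √(σ - 1) * ((∑' m, chi m * A m) - ∑' m, chi m * B m) := by
    rw [hfin l1 hN1, hfin l2 hN2, ← Finset.sum_sub_distrib, ← hsA.tsum_sub hsB]
    have e1 : ∑' m : ℤ, (chi m * A m - chi m * B m) =
        ∑ m ∈ Finset.Icc (-(N : ℤ)) N, (chi m * A m - chi m * B m) := by
      refine tsum_eq_sum ?_
      intro m hm
      have hm' : (N : ℤ) < |m| := by
        rw [Finset.mem_Icc, not_and_or] at hm
        rcases hm with hm | hm
        · have := neg_le_abs m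
          omega
        · have := le_abs_self m
          omega
      have z1 := hz l1 h1 m (hN1 m hm')
      have z2 := hz l2 h2 m (hN2 m hm')
      simp only [hAd, hBd]
      rw [z1, z2]
      ring
    rw [e1, Finset.mul_sum]
    refine Finset.sum_congr rfl ?_
    intro m _
    rw [hK l1 h1 m, hK l2 h2 m]
    simp only [hAd, hBd]
    ring
  rw [hdiff]
  have e2 : 1 / √(σ - 1) * ((∑' m, chi m * A m) - ∑' m, chi m * B m) + 1 / √(σ - 1) * L0 l1 l2 =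
      1 / √(σ - 1) * ((∑' m, chi m * A m) - ((∑' m, chi m * B m) - L0 l1 l2)) := by ring
  rw [e2, abs_mul, abs_of_pos (by positivity : 0 < 1 / √(σ - 1))]
  have hAa : |∑' m, chi m * A m| ≤ C1 * D ^ 2 * √(√(y0 ^ 2 / κ)) := by
    have h3 : |∑' m, chi m * A m| ≤ ∑' m, |A m| := by
      have h4 : ‖∑' m, chi m * A m‖ ≤ ∑' m, |A m| := by
        refine tsum_of_norm_bounded hA1.hasSum ?_
        intro m
        rw [Real.norm_eq_abs, abs_mul]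
        calc |chi m| * |A m| ≤ 1 * |A m| := by gcongr; exact EDB_chi m
          _ = _ := by rw [one_mul]
      simpa using h4
    refine h3.trans (hA2.trans ?_)
    have h5 : (σ - 1 / 1 ^ 2) * 1 ^ 2 / y0 ^ 2 = (σ - 1) / y0 ^ 2 := by ring
    rw [h5, mul_div_assoc]
    refine le_of_eq_of_le (b := C1 * D ^ 2 * (1 / √(√((σ - 1) / y0 ^ 2)))) (by ring) ?_
    have h6 : 1 / √(√((σ - 1) / y0 ^ 2)) ≤ √(√(y0 ^ 2 / κ)) := by
      have h7 : √(√(y0 ^ 2 / κ)) = 1 / √(√(κ / y0 ^ 2)) := by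
        rw [← inv_div κ (y0 ^ 2), Real.sqrt_inv, Real.sqrt_inv, one_div]
      rw [h7]
      have h8 : 0 < √(√(κ / y0 ^ 2)) := by positivity
      refine one_div_le_one_div_of_le h8 ?_
      refine Real.sqrt_le_sqrt (Real.sqrt_le_sqrt ?_)
      gcongr
      linarith
    gcongr
  have h9 : |(∑' m, chi m * A m) - ((∑' m, chi m * B m) - L0 l1 l2)| ≤
      C1 * D ^ 2 * √(√(y0 ^ 2 / κ)) + C2 * D ^ 2 * √((σ - 1) / δ) := by
    refine (abs_sub _ _).trans ?_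
    exact add_le_add hAa hB2
  calc 1 / √(σ - 1) * |(∑' m, chi m * A m) - ((∑' m, chi m * B m) - L0 l1 l2)| ≤
      1 / √(σ - 1) * (C1 * D ^ 2 * √(√(y0 ^ 2 / κ)) + C2 * D ^ 2 * √((σ - 1) / δ)) := by gcongr
    _ = C1 * D ^ 2 * √(√(y0 ^ 2 / κ)) / √(σ - 1) + C2 * D ^ 2 * (1 / √δ) := by
      have e7 : √((σ - 1) / δ) = √(σ - 1) / √δ := Real.sqrt_div (by linarith) _
      have hδs : 0 < √δ := Real.sqrt_pos.mpr hδ
      rw [e7]
      generalize √(√(y0 ^ 2 / κ)) = Z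
      field_simp

theorem EDB (hKMM : KMM_stmt) (hUSM : USM_stmt) (hVSN : VSN_stmt) (hEXK : EXK_stmt) : EDB_stmt := by
  obtain ⟨C1, hC1, hU⟩ := hUSM
  obtain ⟨C2, hC2, hV⟩ := hVSN
  refine ⟨C1 + C2, by positivity, ?_⟩
  intro κ g l1 l2 δ y0 hg h1 h2 hδ hδ1 hp hκδ hy0 hy1 hy
  have hκ := hg.2.1
  set D := 1 + l1 + l2 with hD
  have hD0 : 1 ≤ D := by linarith
  set N : ℕ := ⌈8 * D / y0⌉₊ with hN
  have hNy : 8 * D ≤ N * y0 := by
    have := Nat.le_ceil (8 * D / y0)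
    rw [div_le_iff₀ hy0] at this
    exact this
  obtain ⟨-, z1, i1, -⟩ := hEXK g (EDB_pg hg) 1 l1 y0 N le_rfl h1 hy0 hy1 (by linarith)
  obtain ⟨-, z2, i2, -⟩ := hEXK g (EDB_pg hg) 1 l2 y0 N le_rfl h2 hy0 hy1 (by linarith)
  have hfin : ∀ l' : ℝ, ∀ σ : ℝ, (∀ m : ℤ, (N : ℤ) < |m| → Km σ y0 1 l' m = 0) →
      ∑' m : ℤ, chi m * Km σ y0 1 l' m = ∑ m ∈ Finset.Icc (-(N : ℤ)) N, chi m * Km σ y0 1 l' m := by
    intro l' σ hl'
    refine tsum_eq_sum ?_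
    intro m hm
    rw [hl' m, mul_zero]
    rw [Finset.mem_Icc, not_and_or] at hm
    rcases hm with hm | hm
    · have := neg_le_abs m
      omega
    · have := le_abs_self m
      omega
  have hint : ∀ l' : ℝ, (∀ σ : ℝ, σ ≤ 2 → ∀ m : ℤ, (N : ℤ) < |m| → Km σ y0 1 l' m = 0) →
      (∀ m : ℤ, IntervalIntegrable (fun σ => deriv g σ * Km σ y0 1 l' m) volume 1 2) →
      IntervalIntegrable (fun σ => deriv g σ * ∑' m : ℤ, chi m * Km σ y0 1 l' m) volume 1 2 := by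
    intro l' hz hi
    have hi2 : IntervalIntegrable (fun σ => ∑ m ∈ Finset.Icc (-(N : ℤ)) N,
        chi m * (deriv g σ * Km σ y0 1 l' m)) volume 1 2 := by
      have := IntervalIntegrable.sum (Finset.Icc (-(N : ℤ)) N)
        (f := fun m σ => chi m * (deriv g σ * Km σ y0 1 l' m)) (μ := volume) (a := 1) (b := 2)
        (fun m _ => (hi m).const_mul (chi m))
      refine this.congr ?_
      intro σ _
      simp [Finset.sum_apply]
    refine hi2.congr ?_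
    intro σ hσ
    rw [uIoc_of_le (by norm_num)] at hσ
    simp only
    rw [hfin l' σ (hz σ hσ.2), Finset.mul_sum]
    refine Finset.sum_congr rfl ?_
    intro m _
    ring
  have j1 := hint l1 z1 i1
  have j2 := hint l2 z2 i2
  have hq : IntervalIntegrable (fun σ => deriv g σ / √(σ - 1)) volume 1 2 :=
    (EDB_quot hg).intervalIntegrable _ _
  have hga : IntervalIntegrable (fun σ => |deriv g σ|) volume 1 2 :=
    (EDB_cderiv hg.1).abs.intervalIntegrable _ _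
  have hqa : IntervalIntegrable (fun σ => |deriv g σ| / √(σ - 1)) volume 1 2 := by
    have h3 : (fun σ => |deriv g σ| / √(σ - 1)) = fun σ => |deriv g σ / √(σ - 1)| := by
      funext σ
      rw [abs_div, abs_of_nonneg (Real.sqrt_nonneg (σ - 1))]
    rw [h3]
    exact (EDB_quot hg).abs.intervalIntegrable _ _
  have key : Ex g y0 1 l1 - Ex g y0 1 l2 +
      1 / (2 * Real.pi) * (∫ σ in (1 : ℝ)..2, deriv g σ / √(σ - 1)) * L0 l1 l2 =
      1 / (2 * Real.pi) * ∫ σ in (1 : ℝ)..2, deriv g σ *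
        ((∑' m : ℤ, chi m * Km σ y0 1 l1 m) - (∑' m : ℤ, chi m * Km σ y0 1 l2 m) +
          1 / √(σ - 1) * L0 l1 l2) := by
    have e1 : ∫ σ in (1 : ℝ)..2, deriv g σ *
        ((∑' m : ℤ, chi m * Km σ y0 1 l1 m) - (∑' m : ℤ, chi m * Km σ y0 1 l2 m) +
          1 / √(σ - 1) * L0 l1 l2) =
        (∫ σ in (1 : ℝ)..2, deriv g σ * ∑' m : ℤ, chi m * Km σ y0 1 l1 m) -
        (∫ σ in (1 : ℝ)..2, deriv g σ * ∑' m : ℤ, chi m * Km σ y0 1 l2 m) +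
        (∫ σ in (1 : ℝ)..2, deriv g σ / √(σ - 1)) * L0 l1 l2 := by
      rw [← intervalIntegral.integral_mul_const, ← intervalIntegral.integral_sub j1 j2,
        ← intervalIntegral.integral_add (j1.sub j2) (hq.mul_const _)]
      refine intervalIntegral.integral_congr ?_
      intro σ _
      simp only
      ring
    rw [e1]
    unfold Ex
    ring
  rw [key, abs_mul, abs_of_pos (by positivity : 0 < 1 / (2 * Real.pi))]
  have hb : |∫ σ in (1 : ℝ)..2, deriv g σ *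
        ((∑' m : ℤ, chi m * Km σ y0 1 l1 m) - (∑' m : ℤ, chi m * Km σ y0 1 l2 m) +
          1 / √(σ - 1) * L0 l1 l2)| ≤
      ∫ σ in (1 : ℝ)..2, (C1 * D ^ 2 * √(√(y0 ^ 2 / κ)) * (|deriv g σ| / √(σ - 1)) +
        C2 * D ^ 2 * (1 / √δ) * |deriv g σ|) := by
    rw [← Real.norm_eq_abs]
    refine intervalIntegral.norm_integral_le_of_norm_le (by norm_num) ?_ ?_
    · refine Filter.Eventually.of_forall ?_
      intro σ hσ
      rw [Real.norm_eq_abs, abs_mul]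
      by_cases hd : deriv g σ = 0
      · rw [hd]
        simp
      · obtain ⟨s1, s2⟩ := EDB_supp hg σ hd
        have hpt := EDB_pt hKMM C1 C2 hU hV hC1 κ l1 l2 δ y0 σ N hκ h1 h2 hδ hδ1 hp hκδ hy0 hy1 hy
          s1 s2 hσ.2 (z1 σ hσ.2) (z2 σ hσ.2)
        rw [← hD] at hpt
        calc |deriv g σ| * _ ≤ |deriv g σ| * ((C1 * D ^ 2 * √(√(y0 ^ 2 / κ))) / √(σ - 1) +
              C2 * D ^ 2 * (1 / √δ)) := by gcongr
          _ = _ := by ring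
    · exact (hqa.const_mul _).add (hga.const_mul _)
  rw [intervalIntegral.integral_add (hqa.const_mul _) (hga.const_mul _),
    intervalIntegral.integral_const_mul, intervalIntegral.integral_const_mul] at hb
  set I1 := ∫ σ in (1 : ℝ)..2, |deriv g σ|
  set I2 := ∫ σ in (1 : ℝ)..2, |deriv g σ| / √(σ - 1)
  have hI1 : 0 ≤ I1 := intervalIntegral.integral_nonneg (by norm_num) (fun σ _ => abs_nonneg _)
  have hI2 : 0 ≤ I2 := intervalIntegral.integral_nonneg (by norm_num) (fun σ _ => by positivity)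
  have hpi : 1 / (2 * Real.pi) ≤ 1 := by
    rw [div_le_one (by positivity)]
    linarith [Real.pi_gt_three]
  set T := |∫ σ in (1 : ℝ)..2, deriv g σ *
        ((∑' m : ℤ, chi m * Km σ y0 1 l1 m) - (∑' m : ℤ, chi m * Km σ y0 1 l2 m) +
          1 / √(σ - 1) * L0 l1 l2)| with hT
  have hT0 : 0 ≤ T := abs_nonneg _
  have h10 : 1 / (2 * Real.pi) * T ≤ T := by
    have : 0 ≤ (1 - 1 / (2 * Real.pi)) * T := mul_nonneg (by linarith) hT0
    nlinarith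
  refine h10.trans (hb.trans ?_)
  have q1 : 0 ≤ √(√(y0 ^ 2 / κ)) * I2 := by positivity
  have q2 : 0 ≤ 1 / √δ * I1 := by positivity
  have q3 : 0 ≤ C1 * D ^ 2 * (1 / √δ * I1) := by positivity
  have q4 : 0 ≤ C2 * D ^ 2 * (√(√(y0 ^ 2 / κ)) * I2) := by positivity
  have e5 : (C1 + C2) * D ^ 2 * (1 / √δ * I1 + √(√(y0 ^ 2 / κ)) * I2) =
      C1 * D ^ 2 * √(√(y0 ^ 2 / κ)) * I2 + C2 * D ^ 2 * (1 / √δ) * I1 +
      C1 * D ^ 2 * (1 / √δ * I1) + C2 * D ^ 2 * (√(√(y0 ^ 2 / κ)) * I2) := by ring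
  rw [e5]
  linarith

end SF
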