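import Pool.Agent.helper1.SF.SpecA

set_option autoImplicit false

namespace SF

open MeasureTheory Set

theorem KMM_deriv_pos (l l' e τ y : ℝ) (hl : 0 < l) (he : 0 < e) (hy : 0 < y)
    (hp : 0 < e * (l ^ 2 / y ^ 2 + l' ^ 2) + τ) :
    HasDerivAt (fun y : ℝ => -Lgm (e * (l ^ 2 / y ^ 2 + l' ^ 2)) τ)
      (e * l ^ 2 / (y ^ 3 * √(e * (l ^ 2 / y ^ 2 + l' ^ 2)) *
        √(e * (l ^ 2 / y ^ 2 + l' ^ 2) + τ))) y := by
  have hu0 : 0 < e * (l ^ 2 / y ^ 2 + l' ^ 2) := by positivity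
  have hu : HasDerivAt (fun y : ℝ => e * (l ^ 2 / y ^ 2 + l' ^ 2)) (e * (-(2 * l ^ 2) / y ^ 3)) y := by
    have h1 : HasDerivAt (fun y : ℝ => y ^ 2) (2 * y) y := by
      simpa using hasDerivAt_pow 2 y
    have h2 : HasDerivAt (fun y : ℝ => l ^ 2 / y ^ 2) ((0 * y ^ 2 - l ^ 2 * (2 * y)) / (y ^ 2) ^ 2) y :=
      (hasDerivAt_const y (l ^ 2)).div h1 (by positivity)
    have h3 := (h2.add_const (l' ^ 2)).const_mul e
    refine h3.congr_deriv ?_
    field_simp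
    ring
  have hs1 := hu.sqrt hu0.ne'
  have hs2 := (hu.add_const τ).sqrt hp.ne'
  have hS1 : 0 < √(e * (l ^ 2 / y ^ 2 + l' ^ 2)) := Real.sqrt_pos.mpr hu0
  have hS2 : 0 < √(e * (l ^ 2 / y ^ 2 + l' ^ 2) + τ) := Real.sqrt_pos.mpr hp
  have hne : ((fun y : ℝ => √(e * (l ^ 2 / y ^ 2 + l' ^ 2))) +
      fun y : ℝ => √(e * (l ^ 2 / y ^ 2 + l' ^ 2) + τ)) y ≠ 0 := by
    simp only [Pi.add_apply]
    exact (add_pos hS1 hS2).ne'
  have hlog := ((hs1.add hs2).log hne).neg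
  have hcong : (fun y : ℝ => -Lgm (e * (l ^ 2 / y ^ 2 + l' ^ 2)) τ) =ᶠ[nhds y]
      (fun y : ℝ => -Real.log (√(e * (l ^ 2 / y ^ 2 + l' ^ 2)) +
        √(e * (l ^ 2 / y ^ 2 + l' ^ 2) + τ))) := by
    have hc : ContinuousAt (fun y : ℝ => e * (l ^ 2 / y ^ 2 + l' ^ 2) + τ) y :=
      (hu.add_const τ).continuousAt
    filter_upwards [hc.eventually (lt_mem_nhds hp)] with z hz
    unfold Lgm
    rw [max_eq_left (by linarith)]
  have hfin := hlog.congr_of_eventuallyEq (f₁ := fun y : ℝ => -Lgm (e * (l ^ 2 / y ^ 2 + l' ^ 2)) τ) hcong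
  refine hfin.congr_deriv ?_
  simp only [Pi.add_apply]
  generalize √(e * (l ^ 2 / y ^ 2 + l' ^ 2) + τ) = S2 at hS2 ⊢
  generalize √(e * (l ^ 2 / y ^ 2 + l' ^ 2)) = S1 at hS1 ⊢
  field_simp
  ring

theorem KMM_right (l l' e τ y : ℝ) (hl : 0 < l) (he : 0 < e) (hy : 0 < y) :
    HasDerivWithinAt (fun y : ℝ => -Lgm (e * (l ^ 2 / y ^ 2 + l' ^ 2)) τ)
      (e * l ^ 2 / (y ^ 3 * √(e * (l ^ 2 / y ^ 2 + l' ^ 2)) *
        √(e * (l ^ 2 / y ^ 2 + l' ^ 2) + τ))) (Ioi y) y := by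
  rcases lt_or_ge 0 (e * (l ^ 2 / y ^ 2 + l' ^ 2) + τ) with hp | hp
  · exact (KMM_deriv_pos l l' e τ y hl he hy hp).hasDerivWithinAt
  · rw [Real.sqrt_eq_zero_of_nonpos hp]
    simp only [mul_zero, div_zero]
    have hconst : ∀ z : ℝ, y ≤ z → -Lgm (e * (l ^ 2 / z ^ 2 + l' ^ 2)) τ = -Real.log √(-τ) := by
      intro z hz
      have hle : e * (l ^ 2 / z ^ 2 + l' ^ 2) ≤ e * (l ^ 2 / y ^ 2 + l' ^ 2) := by
        have : l ^ 2 / z ^ 2 ≤ l ^ 2 / y ^ 2 := by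
          gcongr
        nlinarith
      unfold Lgm
      rw [Real.sqrt_eq_zero_of_nonpos (show e * (l ^ 2 / z ^ 2 + l' ^ 2) + τ ≤ 0 by linarith),
        max_eq_right (by linarith), add_zero]
    refine (hasDerivWithinAt_const y (Ioi y) (-Real.log √(-τ))).congr ?_ ?_
    · intro z hz
      exact hconst z (le_of_lt hz)
    · exact hconst y le_rfl

theorem KMM_cont (l l' e τ a b : ℝ) (hl : 0 < l) (he : 0 < e) (ha : 0 < a) :
    ContinuousOn (fun y : ℝ => -Lgm (e * (l ^ 2 / y ^ 2 + l' ^ 2)) τ) (Icc a b) := by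
  intro y hy
  have hy0 : 0 < y := lt_of_lt_of_le ha hy.1
  have hu0 : 0 < e * (l ^ 2 / y ^ 2 + l' ^ 2) := by positivity
  unfold Lgm
  refine ContinuousAt.continuousWithinAt ?_
  have hc : ContinuousAt (fun y : ℝ => e * (l ^ 2 / y ^ 2 + l' ^ 2)) y := by
    have : ContinuousAt (fun y : ℝ => l ^ 2 / y ^ 2) y :=
      ContinuousAt.div continuousAt_const (by fun_prop) (by positivity)
    fun_prop
  refine ContinuousAt.neg (ContinuousAt.log ?_ ?_)
  · exact ((hc.max continuousAt_const).sqrt).add ((hc.add continuousAt_const).sqrt)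
  · have h1 : 0 < √(max (e * (l ^ 2 / y ^ 2 + l' ^ 2)) (-τ)) :=
      Real.sqrt_pos.mpr (lt_max_of_lt_left hu0)
    positivity

theorem KMM : KMM_stmt := by
  intro σ y0 l l' m hσ hy0 hy1 hl hl'
  have hl0 : 0 < l := by linarith
  set e : ℝ := σ - 1 / l ^ 2 with he_def
  have he : 0 < e := by
    have : 1 / l ^ 2 ≤ 1 := by
      rw [div_le_one (by positivity)]
      nlinarith
    linarith
  set τ : ℝ := l' ^ 2 / l ^ 2 - (m : ℝ) ^ 2 / 25 with hτ
  set f : ℝ → ℝ := fun y : ℝ => -Lgm (e * (l ^ 2 / y ^ 2 + l' ^ 2)) τ with hf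
  set f' : ℝ → ℝ := fun y : ℝ => e * l ^ 2 / (y ^ 3 * √(e * (l ^ 2 / y ^ 2 + l' ^ 2)) *
        √(e * (l ^ 2 / y ^ 2 + l' ^ 2) + τ)) with hf'
  have hcont : ContinuousOn f (Icc y0 1) := KMM_cont l l' e τ y0 1 hl0 he hy0
  have hder : ∀ y ∈ Ioo y0 1, HasDerivWithinAt f (f' y) (Ioi y) y := by
    intro y hy
    exact KMM_right l l' e τ y hl0 he (hy0.trans hy.1)
  have hnn : ∀ y ∈ Ioo y0 1, 0 ≤ f' y := by
    intro y hy
    have : 0 < y := hy0.trans hy.1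
    simp only [hf']
    positivity
  have hint : IntegrableOn f' (Ioc y0 1) :=
    intervalIntegral.integrableOn_deriv_right_of_nonneg hcont hder hnn
  have hint' : IntervalIntegrable f' volume y0 1 :=
    (intervalIntegrable_iff_integrableOn_Ioc_of_le hy1).mpr hint
  have hval := intervalIntegral.integral_eq_sub_of_hasDeriv_right_of_le hy1 hcont hder hint'
  have hKm : Km σ y0 l l' m = ∫ y in y0..1, 1 / (l ^ 2 * √e) * f' y := by
    unfold Km
    refine intervalIntegral.integral_congr ?_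
    intro y hy
    rw [uIcc_of_le hy1] at hy
    have hy' : 0 < y := lt_of_lt_of_le hy0 hy.1
    have hu0 : 0 < e * (l ^ 2 / y ^ 2 + l' ^ 2) := by positivity
    have hB : √(BB l l' y) = y * √(e * (l ^ 2 / y ^ 2 + l' ^ 2)) / √e := by
      have : BB l l' y = y ^ 2 * (e * (l ^ 2 / y ^ 2 + l' ^ 2)) / e := by
        unfold BB
        field_simp
        ring
      rw [this, Real.sqrt_div (by positivity), Real.sqrt_mul (by positivity),
        Real.sqrt_sq hy'.le]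
    have hS : √(σ * BB l l' y - 1 - (m : ℝ) ^ 2 * y ^ 2 / 25) =
        y * √(e * (l ^ 2 / y ^ 2 + l' ^ 2) + τ) := by
      have : σ * BB l l' y - 1 - (m : ℝ) ^ 2 * y ^ 2 / 25 =
          y ^ 2 * (e * (l ^ 2 / y ^ 2 + l' ^ 2) + τ) := by
        unfold BB
        rw [hτ, he_def]
        field_simp
        ring
      rw [this, Real.sqrt_mul (by positivity), Real.sqrt_sq hy'.le]
    simp only [hf']
    rw [hB, hS]
    have hse : √e * √e = e := Real.mul_self_sqrt he.le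
    have hse0 : √e ≠ 0 := (Real.sqrt_pos.mpr he).ne'
    set S1 := √(e * (l ^ 2 / y ^ 2 + l' ^ 2))
    set S2 := √(e * (l ^ 2 / y ^ 2 + l' ^ 2) + τ)
    have h1 : 1 / (y * (y * S1 / √e) * (y * S2)) = √e / (y ^ 3 * S1 * S2) := by
      rw [show y * (y * S1 / √e) * (y * S2) = (y ^ 3 * S1 * S2) / √e by ring]
      rw [one_div_div]
    have h2 : 1 / (l ^ 2 * √e) * (e * l ^ 2 / (y ^ 3 * S1 * S2)) = √e / (y ^ 3 * S1 * S2) := by
      rw [div_mul_div_comm, one_mul]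
      have : e * l ^ 2 = (l ^ 2 * √e) * √e := by
        rw [mul_assoc, hse]
        ring
      rw [this, mul_div_mul_left _ _ (by positivity)]
    rw [h1, h2]
  rw [hKm, intervalIntegral.integral_const_mul, hval]
  have e1 : LA σ l l' y0 m = -f y0 := by
    simp only [hf, neg_neg, LA]
    rfl
  have e2 : LA σ l l' 1 m = -f 1 := by
    simp only [hf, neg_neg, LA]
    rfl
  rw [e1, e2]
  ring

end SF
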