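import Mathlib
import Pool.Agent.helper68.SF.SpecW

/-!
Project SF (MP_d52931_gt), module sw:MOB: invariance of the wave equation under Möbius maps.
-/

set_option autoImplicit false

namespace SF

open scoped ContDiff

/-- chain rule in the space variables -/
theorem MOB_chain {h : ℝ → ℝ → ℝ → ℝ} (hh : Sm h) (s : ℝ) {X Y : ℝ → ℝ} {X' Y' t : ℝ}
    (hX : HasDerivAt X X' t) (hY : HasDerivAt Y Y' t) (hpos : 0 < Y t) :
    HasDerivAt (fun u => h s (X u) (Y u)) (dX h s (X t) (Y t) * X' + dY h s (X t) (Y t) * Y') t := by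
  have hopen : IsOpen {p : ℝ × ℝ × ℝ | 0 < p.2.2} :=
    isOpen_lt continuous_const (continuous_snd.comp continuous_snd)
  have hd : DifferentiableAt ℝ (fun p : ℝ × ℝ × ℝ => h p.1 p.2.1 p.2.2) (s, X t, Y t) :=
    ((hh.contDiffAt (hopen.mem_nhds hpos)).differentiableAt (by simp))
  have hF := hd.hasFDerivAt
  set L := fderiv ℝ (fun p : ℝ × ℝ × ℝ => h p.1 p.2.1 p.2.2) (s, X t, Y t) with hL
  have h1 : HasDerivAt (fun u : ℝ => h s u (Y t)) (L (0, 1, 0)) (X t) := by
    have := HasFDerivAt.comp_hasDerivAt (X t) (f := fun u : ℝ => ((s, u, Y t) : ℝ × ℝ × ℝ)) hF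
      ((hasDerivAt_const (X t) s).prodMk ((hasDerivAt_id (X t)).prodMk (hasDerivAt_const (X t) (Y t))))
    exact this
  have h2 : HasDerivAt (fun u : ℝ => h s (X t) u) (L (0, 0, 1)) (Y t) := by
    have := HasFDerivAt.comp_hasDerivAt (Y t) (f := fun u : ℝ => ((s, X t, u) : ℝ × ℝ × ℝ)) hF
      ((hasDerivAt_const (Y t) s).prodMk ((hasDerivAt_const (Y t) (X t)).prodMk (hasDerivAt_id (Y t))))
    exact this
  have h3 : HasDerivAt (fun u : ℝ => h s (X u) (Y u)) (L (0, X', Y')) t := by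
    have := HasFDerivAt.comp_hasDerivAt t (f := fun u : ℝ => ((s, X u, Y u) : ℝ × ℝ × ℝ)) hF
      ((hasDerivAt_const t s).prodMk (hX.prodMk hY))
    exact this
  have e1 : dX h s (X t) (Y t) = L (0, 1, 0) := h1.deriv
  have e2 : dY h s (X t) (Y t) = L (0, 0, 1) := h2.deriv
  refine h3.congr_deriv ?_
  rw [e1, e2]
  have : ((0 : ℝ), X', Y') = X' • ((0 : ℝ), (1 : ℝ), (0 : ℝ)) + Y' • ((0 : ℝ), (0 : ℝ), (1 : ℝ)) := by
    simp
  rw [this, map_add, map_smul, map_smul, smul_eq_mul, smul_eq_mul]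
  ring

/-- the denominator -/
theorem MOB_N {a b c d y : ℝ} (hD : 0 < a * d - b * c) (hy : 0 < y) (x : ℝ) :
    0 < (c * x + d) ^ 2 + (c * y) ^ 2 := by
  by_cases hc : c = 0
  · have hd : d ≠ 0 := by
      rintro rfl
      subst hc
      simp at hD
    subst hc
    have : 0 < d ^ 2 := by positivity
    simpa using this
  · have : 0 < (c * y) ^ 2 := by positivity
    nlinarith [sq_nonneg (c * x + d)]

section der

variable {a b c d : ℝ} (x y : ℝ)

theorem MOB_Xx (hN : (c * x + d) ^ 2 + (c * y) ^ 2 ≠ 0) :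
    HasDerivAt (fun t => Xr a b c d t y)
      ((a * d - b * c) * ((c * x + d) ^ 2 - (c * y) ^ 2) / ((c * x + d) ^ 2 + (c * y) ^ 2) ^ 2) x := by
  have h1 : HasDerivAt (fun t : ℝ => a * t + b) a x := by
    simpa using ((hasDerivAt_id x).const_mul a).add_const b
  have h2 : HasDerivAt (fun t : ℝ => c * t + d) c x := by
    simpa using ((hasDerivAt_id x).const_mul c).add_const d
  have h3 := ((h1.mul h2).add_const (a * c * y ^ 2)).div ((h2.pow 2).add_const ((c * y) ^ 2)) hN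
  refine h3.congr_deriv ?_
  simp only [Pi.mul_apply, Pi.pow_apply]
  field_simp
  ring

theorem MOB_Xy (hN : (c * x + d) ^ 2 + (c * y) ^ 2 ≠ 0) :
    HasDerivAt (fun t => Xr a b c d x t)
      ((a * d - b * c) * (2 * (c * x + d) * (c * y)) / ((c * x + d) ^ 2 + (c * y) ^ 2) ^ 2) y := by
  have h1 : HasDerivAt (fun t : ℝ => a * c * t ^ 2) (a * c * (2 * y)) y := by
    simpa using ((hasDerivAt_pow 2 y)).const_mul (a * c)
  have h2 : HasDerivAt (fun t : ℝ => c * t) c y := by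
    simpa using ((hasDerivAt_id y).const_mul c)
  have h3 := (h1.const_add ((a * x + b) * (c * x + d))).div ((h2.pow 2).const_add ((c * x + d) ^ 2)) hN
  refine h3.congr_deriv ?_
  simp only [Pi.pow_apply]
  field_simp
  ring

theorem MOB_Yx (hN : (c * x + d) ^ 2 + (c * y) ^ 2 ≠ 0) :
    HasDerivAt (fun t => (a * d - b * c) * y / ((c * t + d) ^ 2 + (c * y) ^ 2))
      (-((a * d - b * c) * (2 * (c * x + d) * (c * y)) / ((c * x + d) ^ 2 + (c * y) ^ 2) ^ 2)) x := by
  have h2 : HasDerivAt (fun t : ℝ => c * t + d) c x := by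
    simpa using ((hasDerivAt_id x).const_mul c).add_const d
  have h3 := (hasDerivAt_const x ((a * d - b * c) * y)).div ((h2.pow 2).add_const ((c * y) ^ 2)) hN
  refine h3.congr_deriv ?_
  simp only [Pi.pow_apply]
  field_simp
  ring

theorem MOB_Yy (hN : (c * x + d) ^ 2 + (c * y) ^ 2 ≠ 0) :
    HasDerivAt (fun t => (a * d - b * c) * t / ((c * x + d) ^ 2 + (c * t) ^ 2))
      ((a * d - b * c) * ((c * x + d) ^ 2 - (c * y) ^ 2) / ((c * x + d) ^ 2 + (c * y) ^ 2) ^ 2) y := by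
  have h1 : HasDerivAt (fun t : ℝ => (a * d - b * c) * t) (a * d - b * c) y := by
    simpa using ((hasDerivAt_id y).const_mul (a * d - b * c))
  have h2 : HasDerivAt (fun t : ℝ => c * t) c y := by
    simpa using ((hasDerivAt_id y).const_mul c)
  have h3 := h1.div ((h2.pow 2).const_add ((c * x + d) ^ 2)) hN
  refine h3.congr_deriv ?_
  simp only [Pi.pow_apply]
  field_simp
  ring

/-- derivative of the real part of the first derivative in the direction `x` -/
theorem MOB_Px (hN : (c * x + d) ^ 2 + (c * y) ^ 2 ≠ 0) :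
    HasDerivAt (fun t => (a * d - b * c) * ((c * t + d) ^ 2 - (c * y) ^ 2) /
        ((c * t + d) ^ 2 + (c * y) ^ 2) ^ 2)
      (-(2 * c * (a * d - b * c) * ((c * x + d) ^ 3 - 3 * (c * x + d) * (c * y) ^ 2) /
        ((c * x + d) ^ 2 + (c * y) ^ 2) ^ 3)) x := by
  have h2 : HasDerivAt (fun t : ℝ => c * t + d) c x := by
    simpa using ((hasDerivAt_id x).const_mul c).add_const d
  have h3 := (((h2.pow 2).sub_const ((c * y) ^ 2)).const_mul (a * d - b * c)).div
    (((h2.pow 2).add_const ((c * y) ^ 2)).pow 2) (pow_ne_zero 2 hN)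
  refine h3.congr_deriv ?_
  simp only [Pi.pow_apply]
  generalize c * x + d = u at hN ⊢
  generalize c * y = v at hN ⊢
  rw [← neg_div, div_eq_div_iff (pow_ne_zero _ (pow_ne_zero _ hN)) (pow_ne_zero _ hN)]
  ring

theorem MOB_Qx (hN : (c * x + d) ^ 2 + (c * y) ^ 2 ≠ 0) :
    HasDerivAt (fun t => (a * d - b * c) * (2 * (c * t + d) * (c * y)) /
        ((c * t + d) ^ 2 + (c * y) ^ 2) ^ 2)
      (-(2 * c * (a * d - b * c) * (3 * (c * x + d) ^ 2 * (c * y) - (c * y) ^ 3) /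
        ((c * x + d) ^ 2 + (c * y) ^ 2) ^ 3)) x := by
  have h2 : HasDerivAt (fun t : ℝ => c * t + d) c x := by
    simpa using ((hasDerivAt_id x).const_mul c).add_const d
  have h3 := (((h2.const_mul 2).mul_const (c * y)).const_mul (a * d - b * c)).div
    (((h2.pow 2).add_const ((c * y) ^ 2)).pow 2) (pow_ne_zero 2 hN)
  refine h3.congr_deriv ?_
  simp only [Pi.pow_apply]
  generalize c * x + d = u at hN ⊢
  generalize c * y = v at hN ⊢
  rw [← neg_div, div_eq_div_iff (pow_ne_zero _ (pow_ne_zero _ hN)) (pow_ne_zero _ hN)]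
  ring

theorem MOB_Py (hN : (c * x + d) ^ 2 + (c * y) ^ 2 ≠ 0) :
    HasDerivAt (fun t => (a * d - b * c) * ((c * x + d) ^ 2 - (c * t) ^ 2) /
        ((c * x + d) ^ 2 + (c * t) ^ 2) ^ 2)
      (-(2 * c * (a * d - b * c) * (3 * (c * x + d) ^ 2 * (c * y) - (c * y) ^ 3) /
        ((c * x + d) ^ 2 + (c * y) ^ 2) ^ 3)) y := by
  have h2 : HasDerivAt (fun t : ℝ => c * t) c y := by
    simpa using ((hasDerivAt_id y).const_mul c)
  have h3 := (((h2.pow 2).const_sub ((c * x + d) ^ 2)).const_mul (a * d - b * c)).div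
    (((h2.pow 2).const_add ((c * x + d) ^ 2)).pow 2) (pow_ne_zero 2 hN)
  refine h3.congr_deriv ?_
  simp only [Pi.pow_apply]
  generalize c * x + d = u at hN ⊢
  generalize c * y = v at hN ⊢
  rw [← neg_div, div_eq_div_iff (pow_ne_zero _ (pow_ne_zero _ hN)) (pow_ne_zero _ hN)]
  ring

theorem MOB_Qy (hN : (c * x + d) ^ 2 + (c * y) ^ 2 ≠ 0) :
    HasDerivAt (fun t => (a * d - b * c) * (2 * (c * x + d) * (c * t)) /
        ((c * x + d) ^ 2 + (c * t) ^ 2) ^ 2)
      (2 * c * (a * d - b * c) * ((c * x + d) ^ 3 - 3 * (c * x + d) * (c * y) ^ 2) /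
        ((c * x + d) ^ 2 + (c * y) ^ 2) ^ 3) y := by
  have h2 : HasDerivAt (fun t : ℝ => c * t) c y := by
    simpa using ((hasDerivAt_id y).const_mul c)
  have h3 := ((h2.const_mul (2 * (c * x + d))).const_mul (a * d - b * c)).div
    (((h2.pow 2).const_add ((c * x + d) ^ 2)).pow 2) (pow_ne_zero 2 hN)
  refine h3.congr_deriv ?_
  simp only [Pi.pow_apply]
  generalize c * x + d = u at hN ⊢
  generalize c * y = v at hN ⊢
  rw [div_eq_div_iff (pow_ne_zero _ (pow_ne_zero _ hN)) (pow_ne_zero _ hN)]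
  ring

end der

theorem MOB (hBS : BS_stmt) : MOB_stmt := by
  intro a b c d hD f hf hw
  have hopen : IsOpen {p : ℝ × ℝ × ℝ | 0 < p.2.2} :=
    isOpen_lt continuous_const (continuous_snd.comp continuous_snd)
  have hN : ∀ x y : ℝ, 0 < y → 0 < (c * x + d) ^ 2 + (c * y) ^ 2 := fun x y hy => MOB_N hD hy x
  have hYpos : ∀ x y : ℝ, 0 < y → 0 < (a * d - b * c) * y / ((c * x + d) ^ 2 + (c * y) ^ 2) :=
    fun x y hy => div_pos (mul_pos hD hy) (hN x y hy)
  refine ⟨?_, ?_⟩
  · have hmap : ContDiffOn ℝ ∞ (fun p : ℝ × ℝ × ℝ => ((p.1, Xr a b c d p.2.1 p.2.2,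
        (a * d - b * c) * p.2.2 / ((c * p.2.1 + d) ^ 2 + (c * p.2.2) ^ 2)) : ℝ × ℝ × ℝ))
        {p | 0 < p.2.2} := by
      have hden : ContDiffOn ℝ ∞ (fun p : ℝ × ℝ × ℝ => (c * p.2.1 + d) ^ 2 + (c * p.2.2) ^ 2)
          {p | 0 < p.2.2} := by
        apply ContDiff.contDiffOn
        fun_prop
      refine ContDiffOn.prodMk contDiff_fst.contDiffOn (ContDiffOn.prodMk ?_ ?_)
      · unfold Xr
        refine ContDiffOn.div ?_ hden (fun p hp => (hN p.2.1 p.2.2 hp).ne')
        apply ContDiff.contDiffOn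
        fun_prop
      · refine ContDiffOn.div ?_ hden (fun p hp => (hN p.2.1 p.2.2 hp).ne')
        apply ContDiff.contDiffOn
        fun_prop
    exact ContDiffOn.comp (g := fun p : ℝ × ℝ × ℝ => f p.1 p.2.1 p.2.2) hf hmap
      (fun p hp => hYpos p.2.1 p.2.2 hp)
  · obtain ⟨_, hfX, hfY, hBSf⟩ := hBS f hf
    intro s x y hy
    -- first derivatives
    have e1 : ∀ x y : ℝ, 0 < y → dX (Mb a b c d f) s x y =
        dX f s (Xr a b c d x y) ((a * d - b * c) * y / ((c * x + d) ^ 2 + (c * y) ^ 2)) *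
          ((a * d - b * c) * ((c * x + d) ^ 2 - (c * y) ^ 2) / ((c * x + d) ^ 2 + (c * y) ^ 2) ^ 2) +
        dY f s (Xr a b c d x y) ((a * d - b * c) * y / ((c * x + d) ^ 2 + (c * y) ^ 2)) *
          (-((a * d - b * c) * (2 * (c * x + d) * (c * y)) / ((c * x + d) ^ 2 + (c * y) ^ 2) ^ 2)) := by
      intro x y hy
      exact (MOB_chain hf s (MOB_Xx x y (hN x y hy).ne') (MOB_Yx x y (hN x y hy).ne')
        (hYpos x y hy)).deriv
    have e2 : ∀ x y : ℝ, 0 < y → dY (Mb a b c d f) s x y =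
        dX f s (Xr a b c d x y) ((a * d - b * c) * y / ((c * x + d) ^ 2 + (c * y) ^ 2)) *
          ((a * d - b * c) * (2 * (c * x + d) * (c * y)) / ((c * x + d) ^ 2 + (c * y) ^ 2) ^ 2) +
        dY f s (Xr a b c d x y) ((a * d - b * c) * y / ((c * x + d) ^ 2 + (c * y) ^ 2)) *
          ((a * d - b * c) * ((c * x + d) ^ 2 - (c * y) ^ 2) /
            ((c * x + d) ^ 2 + (c * y) ^ 2) ^ 2) := by
      intro x y hy
      exact (MOB_chain hf s (MOB_Xy x y (hN x y hy).ne') (MOB_Yy x y (hN x y hy).ne')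
        (hYpos x y hy)).deriv
    have hn := (hN x y hy).ne'
    -- second derivatives
    have e3 : dX (dX (Mb a b c d f)) s x y = _ :=
      (((MOB_chain hfX s (MOB_Xx x y hn) (MOB_Yx x y hn) (hYpos x y hy)).mul
        (MOB_Px (a := a) (b := b) x y hn)).add
      ((MOB_chain hfY s (MOB_Xx x y hn) (MOB_Yx x y hn) (hYpos x y hy)).mul
        (MOB_Qx (a := a) (b := b) x y hn).neg)).congr_of_eventuallyEq
        (Filter.Eventually.of_forall fun t => e1 t y hy) |>.deriv
    have e4 : dY (dY (Mb a b c d f)) s x y = _ :=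
      (((MOB_chain hfX s (MOB_Xy x y hn) (MOB_Yy x y hn) (hYpos x y hy)).mul
        (MOB_Qy (a := a) (b := b) x y hn)).add
      ((MOB_chain hfY s (MOB_Xy x y hn) (MOB_Yy x y hn) (hYpos x y hy)).mul
        (MOB_Py (a := a) (b := b) x y hn))).congr_of_eventuallyEq
        ((lt_mem_nhds hy).mono fun t ht => e2 x t ht) |>.deriv
    have e5 : dS (dS (Mb a b c d f)) s x y = dS (dS f) s (Xr a b c d x y)
        ((a * d - b * c) * y / ((c * x + d) ^ 2 + (c * y) ^ 2)) := rfl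
    have e6 := hw s (Xr a b c d x y) _ (hYpos x y hy)
    have e7 := (hBSf s (Xr a b c d x y) _ (hYpos x y hy)).2.2.2.2.2
    rw [e5, e6, e3, e4]
    simp only [Pi.neg_apply]
    have e8 : Mb a b c d f s x y = f s (Xr a b c d x y)
        ((a * d - b * c) * y / ((c * x + d) ^ 2 + (c * y) ^ 2)) := rfl
    rw [e8]
    generalize dX (dX f) s (Xr a b c d x y)
        ((a * d - b * c) * y / ((c * x + d) ^ 2 + (c * y) ^ 2)) = f11 at *
    generalize dY (dY f) s (Xr a b c d x y)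
        ((a * d - b * c) * y / ((c * x + d) ^ 2 + (c * y) ^ 2)) = f22 at *
    generalize dX (dY f) s (Xr a b c d x y)
        ((a * d - b * c) * y / ((c * x + d) ^ 2 + (c * y) ^ 2)) = f12 at *
    generalize dY (dX f) s (Xr a b c d x y)
        ((a * d - b * c) * y / ((c * x + d) ^ 2 + (c * y) ^ 2)) = f21 at *
    generalize dX f s (Xr a b c d x y)
        ((a * d - b * c) * y / ((c * x + d) ^ 2 + (c * y) ^ 2)) = f1 at *
    generalize dY f s (Xr a b c d x y)
        ((a * d - b * c) * y / ((c * x + d) ^ 2 + (c * y) ^ 2)) = f2 at *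
    generalize f s (Xr a b c d x y)
        ((a * d - b * c) * y / ((c * x + d) ^ 2 + (c * y) ^ 2)) = f0 at *
    clear e3 e4 e5 e6 e8 e1 e2 hBSf hfX hfY hf hw
    subst e7
    have key : ((a * d - b * c) * ((c * x + d) ^ 2 - (c * y) ^ 2) /
          ((c * x + d) ^ 2 + (c * y) ^ 2) ^ 2) ^ 2 +
        ((a * d - b * c) * (2 * (c * x + d) * (c * y)) /
          ((c * x + d) ^ 2 + (c * y) ^ 2) ^ 2) ^ 2 =
        ((a * d - b * c) / ((c * x + d) ^ 2 + (c * y) ^ 2)) ^ 2 := by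
      generalize c * x + d = u at hn ⊢
      generalize c * y = v at hn ⊢
      rw [div_pow, div_pow, ← add_div, div_pow, div_eq_div_iff (pow_ne_zero _ (pow_ne_zero _ hn))
        (pow_ne_zero _ hn)]
      ring
    have hY : (a * d - b * c) * y / ((c * x + d) ^ 2 + (c * y) ^ 2) =
        (a * d - b * c) / ((c * x + d) ^ 2 + (c * y) ^ 2) * y := by ring
    rw [hY]
    generalize (a * d - b * c) / ((c * x + d) ^ 2 + (c * y) ^ 2) = W at key ⊢
    generalize (a * d - b * c) * ((c * x + d) ^ 2 - (c * y) ^ 2) /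
          ((c * x + d) ^ 2 + (c * y) ^ 2) ^ 2 = P at key ⊢
    generalize (a * d - b * c) * (2 * (c * x + d) * (c * y)) /
          ((c * x + d) ^ 2 + (c * y) ^ 2) ^ 2 = Q at key ⊢
    generalize 2 * c * (a * d - b * c) * ((c * x + d) ^ 3 - 3 * (c * x + d) * (c * y) ^ 2) /
        ((c * x + d) ^ 2 + (c * y) ^ 2) ^ 3 = R
    generalize 2 * c * (a * d - b * c) * (3 * (c * x + d) ^ 2 * (c * y) - (c * y) ^ 3) /
        ((c * x + d) ^ 2 + (c * y) ^ 2) ^ 3 = T
    linear_combination (-(4 * y ^ 2 * (f11 + f22))) * key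

end SF
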