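import Pool.Agent.helper1.SF.SpecA

set_option autoImplicit false

namespace SF

open MeasureTheory Set

theorem NOD_exp_le {t s : ℝ} (ht : 0 ≤ t) (hs : 1 / 96 ≤ s) :
    Real.exp (-(s * t)) ≤ Real.exp (-t / 96) := by
  apply Real.exp_le_exp.mpr
  nlinarith

theorem NOD (hGJF : GJF_stmt) (hGJC : GJC_stmt) : NOD_stmt := by
  obtain ⟨C1, hC1, hF⟩ := hGJF
  obtain ⟨C2, hC2, hC⟩ := hGJC
  refine ⟨C2 * 10000 ^ 12 + 2 * C1 + C2, by positivity, ?_⟩
  intro k a b m δ t hNL hδ hδ1 hNR h10 ht hgap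
  have ha : 1 ≤ a := by
    rcases hNL.1 with h | h <;> linarith
  have hb : 1 ≤ b := by
    rcases hNL.2.1 with h | h <;> linarith
  have hm1 : 1 ≤ m := by linarith [hNL.2.2.2.1]
  have hm2 : m ≤ a + b := hNL.2.2.2.2
  have hgap0 : 0 ≤ a + b - m := by linarith
  have hcoarse := hC k a b m ha hb hm1 hm2
  set S := a + b with hS
  have hS1 : 1 ≤ S := by linarith
  set E := Real.exp (-t / 96) with hE
  have hE0 : 0 < E := Real.exp_pos _
  have hEt : Real.exp (-t) ≤ E := by
    rw [hE]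
    apply Real.exp_le_exp.mpr
    linarith
  have hδ12 : δ ^ 12 ≤ 1 := pow_le_one₀ hδ.le hδ1
  have hQ : 1 ≤ S ^ 24 / δ ^ 12 := by
    rw [one_le_div (by positivity)]
    exact hδ12.trans (one_le_pow₀ hS1)
  have hQE : E ≤ S ^ 24 / δ ^ 12 * E := by nlinarith
  have hgoal : (C2 * 10000 ^ 12 + 2 * C1 + C2) * S ^ 24 / δ ^ 12 * E =
      C2 * 10000 ^ 12 * (S ^ 24 / δ ^ 12 * E) + C1 * (S ^ 24 / δ ^ 12 * E) +
        C1 * (S ^ 24 / δ ^ 12 * E) + C2 * (S ^ 24 / δ ^ 12 * E) := by ring
  rw [hgoal]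
  have hQE0 : 0 < S ^ 24 / δ ^ 12 * E := by positivity
  have p1 : 0 < C2 * 10000 ^ 12 * (S ^ 24 / δ ^ 12 * E) := by positivity
  have p2 : 0 < C1 * (S ^ 24 / δ ^ 12 * E) := by positivity
  have p3 : 0 < C2 * (S ^ 24 / δ ^ 12 * E) := by positivity
  rcases lt_or_ge (δ * 2 ^ k) (10000 * S ^ 2) with hk | hk
  · -- case 1
    have h2k : (2 : ℝ) ^ k ≤ 10000 * S ^ 2 / δ := by
      rw [le_div_iff₀ hδ]
      linarith
    have h12 : (2 : ℝ) ^ (12 * k) ≤ 10000 ^ 12 * (S ^ 24 / δ ^ 12) := by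
      calc (2 : ℝ) ^ (12 * k) = (2 ^ k) ^ 12 := by rw [← pow_mul, mul_comm]
        _ ≤ (10000 * S ^ 2 / δ) ^ 12 := by gcongr
        _ = 10000 ^ 12 * (S ^ 24 / δ ^ 12) := by ring
    have : C2 * 2 ^ (12 * k) * (S - m) ≤ C2 * 10000 ^ 12 * (S ^ 24 / δ ^ 12 * E) := by
      calc C2 * 2 ^ (12 * k) * (S - m) ≤ C2 * (10000 ^ 12 * (S ^ 24 / δ ^ 12)) * Real.exp (-t) := by
            gcongr
        _ ≤ C2 * (10000 ^ 12 * (S ^ 24 / δ ^ 12)) * E := by gcongr
        _ = _ := by ring
    linarith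
  · rcases le_or_gt ((2 : ℝ) ^ (12 * k)) (Real.exp (t / 2)) with hk2 | hk2
    · -- case 2
      have : C2 * 2 ^ (12 * k) * (S - m) ≤ C2 * (S ^ 24 / δ ^ 12 * E) := by
        have h3 : Real.exp (t / 2) * Real.exp (-t) ≤ E := by
          rw [← Real.exp_add]
          apply Real.exp_le_exp.mpr
          linarith
        calc C2 * 2 ^ (12 * k) * (S - m) ≤ C2 * Real.exp (t / 2) * Real.exp (-t) := by
              gcongr
          _ = C2 * (Real.exp (t / 2) * Real.exp (-t)) := by ring
          _ ≤ C2 * E := by gcongr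
          _ ≤ _ := by gcongr
      linarith
    · -- case 3
      have hfine := hF k a b m δ hNL hδ hδ1 hNR h10 hk
      rw [← hS] at hfine
      have h4 : Real.exp (t / 96) ≤ √(√(2 ^ k)) := by
        have h5 : Real.exp (t / 24) ≤ 2 ^ k := by
          have h6 : Real.exp (t / 24) ^ 12 ≤ ((2 : ℝ) ^ k) ^ 12 := by
            rw [← Real.exp_nat_mul, ← pow_mul, mul_comm k 12]
            have : ((12 : ℕ) : ℝ) * (t / 24) = t / 2 := by push_cast; ring
            rw [this]
            exact hk2.le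
          exact le_of_pow_le_pow_left₀ (by norm_num) (by positivity) h6
        rw [Real.le_sqrt' (Real.exp_pos _), Real.le_sqrt' (by positivity)]
        have : (Real.exp (t / 96) ^ 2) ^ 2 = Real.exp (t / 24) := by
          rw [← pow_mul, ← Real.exp_nat_mul]
          congr 1
          push_cast
          ring
        rw [this]
        exact h5
      have h7 : 1 / √(√(2 ^ k)) ≤ E := by
        calc 1 / √(√(2 ^ k)) ≤ 1 / Real.exp (t / 96) := by
              apply one_div_le_one_div_of_le (Real.exp_pos _) h4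
          _ = E := by
              rw [one_div, ← Real.exp_neg, hE]
              congr 1
              ring
      have h8 : 1 / √δ ≤ 1 / δ ^ 12 := by
        apply one_div_le_one_div_of_le (by positivity)
        have h9 : δ ≤ √δ := by
          rw [Real.le_sqrt' hδ]
          nlinarith
        have h10 : δ ^ 12 ≤ δ := by
          calc δ ^ 12 = δ ^ 11 * δ := by ring
            _ ≤ 1 * δ := by
              gcongr
              exact pow_le_one₀ hδ.le hδ1
            _ = δ := one_mul _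
        exact h10.trans h9
      have h8' : 1 / δ ≤ 1 / δ ^ 12 := by
        apply one_div_le_one_div_of_le (by positivity)
        calc δ ^ 12 = δ ^ 11 * δ := by ring
            _ ≤ 1 * δ := by
              gcongr
              exact pow_le_one₀ hδ.le hδ1
            _ = δ := one_mul _
      have f1 : C1 * S ^ 4 / √δ / √(√(2 ^ k)) ≤ C1 * (S ^ 24 / δ ^ 12 * E) := by
        calc C1 * S ^ 4 / √δ / √(√(2 ^ k)) = C1 * (S ^ 4 * (1 / √δ) * (1 / √(√(2 ^ k)))) := by ring
          _ ≤ C1 * (S ^ 24 * (1 / δ ^ 12) * E) := by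
              have g1 : S ^ 4 ≤ S ^ 24 := pow_le_pow_right₀ hS1 (by norm_num)
              have g2 : S ^ 4 * (1 / √δ) ≤ S ^ 24 * (1 / δ ^ 12) :=
                mul_le_mul g1 h8 (by positivity) (by positivity)
              exact mul_le_mul_of_nonneg_left
                (mul_le_mul g2 h7 (by positivity) (by positivity)) hC1.le
          _ = _ := by ring
      have f2 : C1 * S ^ 2 * (S - m) / δ ≤ C1 * (S ^ 24 / δ ^ 12 * E) := by
        calc C1 * S ^ 2 * (S - m) / δ = C1 * (S ^ 2 * (1 / δ) * (S - m)) := by ring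
          _ ≤ C1 * (S ^ 24 * (1 / δ ^ 12) * E) := by
              have g1 : S ^ 2 ≤ S ^ 24 := pow_le_pow_right₀ hS1 (by norm_num)
              have g2 : S ^ 2 * (1 / δ) ≤ S ^ 24 * (1 / δ ^ 12) :=
                mul_le_mul g1 h8' (by positivity) (by positivity)
              exact mul_le_mul_of_nonneg_left
                (mul_le_mul g2 (hgap.trans hEt) hgap0 (by positivity)) hC1.le
          _ = _ := by ring
      linarith

end SF
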