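import Mathlib
import Pool.Agent.helper68.SF.SpecS

/-!
Project SF (MP_d52931_gt), module ss:TEL: telescoping over the tree.
-/

set_option autoImplicit false

namespace SF

theorem TEL_inj (b : Bool) : Function.Injective (fun w : List Bool => w ++ [b]) := by
  intro u v h
  exact List.append_cancel_right h

theorem TEL : TEL_stmt := by
  intro F hF
  have hfin : ∀ b : Bool, (Function.support fun w : List Bool => F (w ++ [b])).Finite := by
    intro b
    exact Set.Finite.preimage (f := fun w : List Bool => w ++ [b]) ((TEL_inj b).injOn) hF
  have hF' : (Function.support F).Finite := hF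
  have hsum : (Function.support fun w : List Bool => F (w ++ [true]) + F (w ++ [false])).Finite :=
    ((hfin true).union (hfin false)).subset (Function.support_add _ _)
  refine ⟨(hsum.union hF').subset (Function.support_sub _ _), ?_⟩
  rw [finsum_sub_distrib hsum hF', finsum_add_distrib (hfin true) (hfin false)]
  have h1 : ∀ b : Bool, ∑ᶠ w : List Bool, F (w ++ [b]) =
      ∑ᶠ w ∈ Set.range (fun w : List Bool => w ++ [b]), F w := by
    intro b
    rw [finsum_mem_range (TEL_inj b)]
  have hd : Disjoint (Set.range (fun w : List Bool => w ++ [true]))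
      (Set.range (fun w : List Bool => w ++ [false])) := by
    rw [Set.disjoint_left]
    rintro x ⟨u, rfl⟩ ⟨v, hv⟩
    have := List.append_inj_right' hv rfl
    simp at this
  rw [h1 true, h1 false, ← finsum_mem_union' hd (hF'.subset Set.inter_subset_right)
    (hF'.subset Set.inter_subset_right)]
  have hu : Set.range (fun w : List Bool => w ++ [true]) ∪
      Set.range (fun w : List Bool => w ++ [false]) = ({[]} : Set (List Bool))ᶜ := by
    ext w
    constructor
    · rintro (⟨u, rfl⟩ | ⟨u, rfl⟩) <;> simp
    · intro hw
      have hw' : w ≠ [] := hw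
      obtain ⟨u, b, rfl⟩ := List.eq_nil_or_concat w |>.resolve_left hw'
      cases b
      · right; exact ⟨u, by simp⟩
      · left; exact ⟨u, by simp⟩
  rw [hu]
  have h2 : ∑ᶠ w : List Bool, F w =
      ∑ᶠ w ∈ ({[]} : Set (List Bool)), F w + ∑ᶠ w ∈ ({[]} : Set (List Bool))ᶜ, F w := by
    rw [← finsum_mem_union' disjoint_compl_right (hF'.subset Set.inter_subset_right)
      (hF'.subset Set.inter_subset_right), Set.union_compl_self, finsum_mem_univ]
  rw [h2, finsum_mem_singleton]
  ring

end SF
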