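import Pool.Agent.helper1.SF.SpecA

set_option autoImplicit false

namespace SF

open MeasureTheory Set

theorem VSM_e (σ l : ℝ) (h1 : 1 < σ) (hl : 3 / 2 ≤ l) :
    5 / 9 ≤ σ - 1 / l ^ 2 ∧ σ - 1 / l ^ 2 ≤ σ ∧ 0 ≤ 1 / l ^ 2 ∧ 1 / l ^ 2 ≤ 1 := by
  have h0 : 0 < l := by linarith
  have h2 : 1 / l ^ 2 ≤ 4 / 9 := by
    rw [div_le_div_iff₀ (by positivity) (by norm_num)]
    nlinarith
  have h3 : 0 ≤ 1 / l ^ 2 := by positivity
  exact ⟨by linarith, by linarith, h3, by linarith⟩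

theorem VSM_A (σ l l' D n : ℝ) (h1 : 1 < σ) (h2 : σ ≤ 2) (hl : 3 / 2 ≤ l) (hl' : 1 ≤ l')
    (hD : l + l' ≤ D) (hn0 : 0 ≤ n) (hn : n ≤ 4 * D ^ 2) :
    0 ≤ Lgm ((σ - 1 / l ^ 2) * (l ^ 2 / 1 ^ 2 + l' ^ 2)) (l' ^ 2 / l ^ 2 - n) ∧
    Lgm ((σ - 1 / l ^ 2) * (l ^ 2 / 1 ^ 2 + l' ^ 2)) (l' ^ 2 / l ^ 2 - n) ≤ 4 * D := by
  obtain ⟨he1, he2, he3, he4⟩ := VSM_e σ l h1 hl
  have h0 : 0 < l := by linarith
  have hD2 : l ^ 2 + l' ^ 2 ≤ D ^ 2 := by nlinarith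
  have hq : l' ^ 2 / l ^ 2 = l' ^ 2 * (1 / l ^ 2) := by ring
  set e := σ - 1 / l ^ 2 with he
  have hu : e * (l ^ 2 / 1 ^ 2 + l' ^ 2) = e * (l ^ 2 + l' ^ 2) := by ring
  rw [hu]
  have hu1 : 1 ≤ e * (l ^ 2 + l' ^ 2) := by nlinarith
  have hu2 : e * (l ^ 2 + l' ^ 2) ≤ 2 * D ^ 2 := by nlinarith
  have hl2 : (1 / l ^ 2) * l ^ 2 = 1 := by field_simp
  have hut : e * (l ^ 2 + l' ^ 2) + (l' ^ 2 / l ^ 2 - n) ≤ 2 * D ^ 2 := by
    rw [hq, he]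
    nlinarith
  have hm1 : 1 ≤ √(max (e * (l ^ 2 + l' ^ 2)) (-(l' ^ 2 / l ^ 2 - n))) := by
    rw [Real.one_le_sqrt]
    exact le_max_of_le_left hu1
  have hm2 : √(max (e * (l ^ 2 + l' ^ 2)) (-(l' ^ 2 / l ^ 2 - n))) ≤ 2 * D := by
    refine Real.sqrt_le_iff.mpr ⟨by nlinarith, max_le (by nlinarith) ?_⟩
    have : 0 ≤ l' ^ 2 / l ^ 2 := by positivity
    nlinarith
  have hm3 : √(e * (l ^ 2 + l' ^ 2) + (l' ^ 2 / l ^ 2 - n)) ≤ 2 * D := by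
    refine Real.sqrt_le_iff.mpr ⟨by nlinarith, by nlinarith⟩
  have hm4 : 0 ≤ √(e * (l ^ 2 + l' ^ 2) + (l' ^ 2 / l ^ 2 - n)) := Real.sqrt_nonneg _
  unfold Lgm
  refine ⟨Real.log_nonneg (by linarith), ?_⟩
  have := Real.log_le_sub_one_of_pos
    (x := √(max (e * (l ^ 2 + l' ^ 2)) (-(l' ^ 2 / l ^ 2 - n))) +
      √(e * (l ^ 2 + l' ^ 2) + (l' ^ 2 / l ^ 2 - n))) (by linarith)
  linarith

theorem VSM_B (σ l l' D n : ℝ) (h1 : 1 < σ) (h2 : σ ≤ 2) (hl : 3 / 2 ≤ l) (hl' : 1 ≤ l')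
    (hD : l + l' ≤ D) (hn : 4 * D ^ 2 < n) :
    Lgm ((σ - 1 / l ^ 2) * (l ^ 2 / 1 ^ 2 + l' ^ 2)) (l' ^ 2 / l ^ 2 - n) =
      1 / 2 * Real.log (n - l' ^ 2 / l ^ 2) ∧ 0 ≤ l' ^ 2 / l ^ 2 ∧ l' ^ 2 / l ^ 2 ≤ D ^ 2 := by
  obtain ⟨he1, he2, he3, he4⟩ := VSM_e σ l h1 hl
  have h0 : 0 < l := by linarith
  have hD2 : l ^ 2 + l' ^ 2 ≤ D ^ 2 := by nlinarith
  have hq : l' ^ 2 / l ^ 2 = l' ^ 2 * (1 / l ^ 2) := by ring
  have hq1 : l' ^ 2 / l ^ 2 ≤ D ^ 2 := by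
    rw [hq]
    nlinarith
  have hq0 : 0 ≤ l' ^ 2 / l ^ 2 := by positivity
  refine ⟨?_, hq0, hq1⟩
  set e := σ - 1 / l ^ 2 with he
  have hu : e * (l ^ 2 / 1 ^ 2 + l' ^ 2) = e * (l ^ 2 + l' ^ 2) := by ring
  rw [hu]
  have hu2 : e * (l ^ 2 + l' ^ 2) ≤ 2 * D ^ 2 := by nlinarith
  have hl2 : (1 / l ^ 2) * l ^ 2 = 1 := by field_simp
  have hut : e * (l ^ 2 + l' ^ 2) + (l' ^ 2 / l ^ 2 - n) ≤ 0 := by
    rw [hq, he]
    nlinarith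
  unfold Lgm
  rw [Real.sqrt_eq_zero_of_nonpos hut, add_zero, max_eq_right (by linarith), neg_sub,
    Real.log_sqrt (by nlinarith)]
  ring

theorem VSM_log (x y d c : ℝ) (hc : 0 < c) (hx : c ≤ x) (hy : c ≤ y) (hd : |x - y| ≤ d) :
    |Real.log x - Real.log y| ≤ d / c := by
  have key : ∀ x y : ℝ, c ≤ x → c ≤ y → |x - y| ≤ d → Real.log x - Real.log y ≤ d / c := by
    intro x y hx hy hd
    have hx0 : 0 < x := lt_of_lt_of_le hc hx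
    have hy0 : 0 < y := lt_of_lt_of_le hc hy
    have h1 := Real.log_le_sub_one_of_pos (x := x / y) (by positivity)
    rw [Real.log_div hx0.ne' hy0.ne'] at h1
    have h2 : x / y - 1 = (x - y) / y := by
      field_simp
    rw [h2] at h1
    have h3 : (x - y) / y ≤ d / c := by
      have hd0 : 0 ≤ d := (abs_nonneg _).trans hd
      calc (x - y) / y ≤ d / y := by
            gcongr
            exact (le_abs_self _).trans hd
        _ ≤ d / c := by gcongr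
    linarith
  rw [abs_le]
  constructor
  · have := key y x hy hx (by rwa [abs_sub_comm])
    linarith
  · exact key x y hx hy hd

theorem VSM_bound (σ l l1 l2 : ℝ) (h1 : 1 < σ) (h2 : σ ≤ 2) (hl : 3 / 2 ≤ l) (hl1 : 1 ≤ l1)
    (hl2 : 1 ≤ l2) (m : ℤ) :
    |LA σ l l1 1 m - LA σ l l2 1 m| ≤
      (if m ∈ Finset.Icc (-⌊10 * (l + l1 + l2)⌋) ⌊10 * (l + l1 + l2)⌋ then 4 * (l + l1 + l2) else 0) +
        25 * (l + l1 + l2) ^ 2 * (1 / (m : ℝ) ^ 2) := by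
  set D := l + l1 + l2 with hDdef
  have hD0 : 0 < D := by linarith
  have hn0 : (0 : ℝ) ≤ (m : ℝ) ^ 2 / 25 := by positivity
  split_ifs with hm
  · rw [Finset.mem_Icc] at hm
    have hfl : ((⌊10 * D⌋ : ℤ) : ℝ) ≤ 10 * D := Int.floor_le _
    have ha : -(10 * D) ≤ (m : ℝ) := by
      have : ((-⌊10 * D⌋ : ℤ) : ℝ) ≤ (m : ℝ) := by exact_mod_cast hm.1
      push_cast at this
      linarith
    have hb : (m : ℝ) ≤ 10 * D := by
      have : (m : ℝ) ≤ ((⌊10 * D⌋ : ℤ) : ℝ) := by exact_mod_cast hm.2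
      linarith
    have hn : (m : ℝ) ^ 2 / 25 ≤ 4 * D ^ 2 := by
      have : (m : ℝ) ^ 2 ≤ (10 * D) ^ 2 := by
        apply sq_le_sq'
        · exact ha
        · exact hb
      nlinarith
    have hA1 := VSM_A σ l l1 D _ h1 h2 hl hl1 (by linarith) hn0 hn
    have hA2 := VSM_A σ l l2 D _ h1 h2 hl hl2 (by linarith) hn0 hn
    have hpos : 0 ≤ 25 * D ^ 2 * (1 / (m : ℝ) ^ 2) := by positivity
    unfold LA
    rw [abs_le]
    constructor <;> linarith [hA1.1, hA1.2, hA2.1, hA2.2]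
  · have hbig : 10 * D < |(m : ℝ)| := by
      by_contra hcon
      push Not at hcon
      apply hm
      rw [Finset.mem_Icc]
      have h3 : |m| ≤ ⌊10 * D⌋ := by
        rw [Int.le_floor]
        push_cast
        exact hcon
      exact abs_le.mp h3
    have hn : 4 * D ^ 2 < (m : ℝ) ^ 2 / 25 := by
      have : (10 * D) ^ 2 < |(m : ℝ)| ^ 2 := by
        apply pow_lt_pow_left₀ hbig (by positivity) (by norm_num)
      rw [sq_abs] at this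
      nlinarith
    obtain ⟨e1, f1, g1⟩ := VSM_B σ l l1 D _ h1 h2 hl hl1 (by linarith) hn
    obtain ⟨e2, f2, g2⟩ := VSM_B σ l l2 D _ h1 h2 hl hl2 (by linarith) hn
    unfold LA
    rw [e1, e2, zero_add]
    set n := (m : ℝ) ^ 2 / 25 with hndef
    have hnpos : 0 < n := by nlinarith
    have hlog := VSM_log (n - l1 ^ 2 / l ^ 2) (n - l2 ^ 2 / l ^ 2) (D ^ 2) (3 / 4 * n) (by positivity)
      (by nlinarith) (by nlinarith) (by
        rw [abs_le]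
        constructor <;> nlinarith)
    have e3 : 1 / 2 * Real.log (n - l1 ^ 2 / l ^ 2) - 1 / 2 * Real.log (n - l2 ^ 2 / l ^ 2) =
        1 / 2 * (Real.log (n - l1 ^ 2 / l ^ 2) - Real.log (n - l2 ^ 2 / l ^ 2)) := by ring
    rw [e3, abs_mul, abs_of_pos (by norm_num : (0 : ℝ) < 1 / 2)]
    have hm2 : 0 < (m : ℝ) ^ 2 := by nlinarith
    have e4 : 25 * D ^ 2 * (1 / (m : ℝ) ^ 2) = D ^ 2 / n := by
      rw [hndef]
      field_simp
    rw [e4]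
    have e5 : D ^ 2 / (3 / 4 * n) = 4 / 3 * (D ^ 2 / n) := by
      field_simp
    rw [e5] at hlog
    have e6 : 0 ≤ D ^ 2 / n := by positivity
    linarith

theorem VSM : VSM_stmt := by
  have hS : Summable (fun m : ℤ => 1 / (m : ℝ) ^ 2) := Real.summable_one_div_int_pow.mpr (by norm_num)
  refine ⟨84 + 25 * ∑' m : ℤ, 1 / (m : ℝ) ^ 2, ?_, ?_⟩
  · have : 0 ≤ ∑' m : ℤ, 1 / (m : ℝ) ^ 2 := tsum_nonneg (fun m => by positivity)
    positivity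
  · intro σ l l1 l2 h1 h2 hl hl1 hl2
    set D := l + l1 + l2 with hD
    have hD0 : 1 ≤ D := by linarith
    have hb := VSM_bound σ l l1 l2 h1 h2 hl hl1 hl2
    rw [← hD] at hb
    have hI : HasSum (fun m : ℤ => if m ∈ Finset.Icc (-⌊10 * D⌋) ⌊10 * D⌋ then 4 * D else 0)
        (∑ m ∈ Finset.Icc (-⌊10 * D⌋) ⌊10 * D⌋,
          if m ∈ Finset.Icc (-⌊10 * D⌋) ⌊10 * D⌋ then 4 * D else 0) := by
      apply hasSum_sum_of_ne_finset_zero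
      intro m hm
      rw [if_neg hm]
    have hI2 : (∑ m ∈ Finset.Icc (-⌊10 * D⌋) ⌊10 * D⌋,
          if m ∈ Finset.Icc (-⌊10 * D⌋) ⌊10 * D⌋ then 4 * D else 0) ≤ 84 * D ^ 2 := by
      rw [Finset.sum_congr rfl (fun m hm => if_pos hm), Finset.sum_const, Int.card_Icc,
        nsmul_eq_mul]
      have hfl : ((⌊10 * D⌋ : ℤ) : ℝ) ≤ 10 * D := Int.floor_le _
      have hfl0 : 0 ≤ ⌊10 * D⌋ := by
        rw [Int.le_floor]
        push_cast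
        linarith
      have hc : (((⌊10 * D⌋ + 1 - -⌊10 * D⌋).toNat : ℕ) : ℝ) ≤ 21 * D := by
        have h3 : (((⌊10 * D⌋ + 1 - -⌊10 * D⌋).toNat : ℤ)) = ⌊10 * D⌋ + 1 - -⌊10 * D⌋ :=
          Int.toNat_of_nonneg (by omega)
        have h4 : (((⌊10 * D⌋ + 1 - -⌊10 * D⌋).toNat : ℕ) : ℝ) = ((⌊10 * D⌋ : ℤ) : ℝ) + 1 + (⌊10 * D⌋ : ℤ) := by
          have h5 : ((((⌊10 * D⌋ + 1 - -⌊10 * D⌋).toNat : ℕ) : ℤ) : ℝ) =
              ((⌊10 * D⌋ + 1 - -⌊10 * D⌋ : ℤ) : ℝ) := by rw [h3]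
          push_cast at h5
          push_cast
          linarith
        rw [h4]
        linarith
      nlinarith
    have hs2 : HasSum (fun m : ℤ => 25 * D ^ 2 * (1 / (m : ℝ) ^ 2))
        (25 * D ^ 2 * ∑' m : ℤ, 1 / (m : ℝ) ^ 2) := hS.hasSum.mul_left _
    have hsum := hI.add hs2
    have hsm : Summable (fun m : ℤ => |LA σ l l1 1 m - LA σ l l2 1 m|) :=
      Summable.of_nonneg_of_le (fun m => abs_nonneg _) hb hsum.summable
    refine ⟨hsm, ?_⟩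
    have hle := hsm.tsum_le_tsum hb hsum.summable
    rw [hsum.tsum_eq] at hle
    nlinarith

end SF
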