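import Mathlib
import Pool.Agent.helper72.SF.SpecT

/-!
Project SF (MP_d52931_gt), module st:T10: the weighted count.
-/

set_option autoImplicit false

namespace SF

open Pool.Agent.helper72.Sq AM Matrix

/-- the indicator of a suffix -/
noncomputable def T10_ind (s w : List Bool) : ℝ :=
  open Classical in if s <:+ w then 1 else 0

theorem T10_psi0 (w : List Bool) :
    psi0 w = (T10_ind [true, false, false] w + T10_ind [true, false, false, false] w +
      T10_ind [false, true, false] w) - (T10_ind [false, true, true] w +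
      T10_ind [false, true, true, true] w + T10_ind [true, false, true] w) := by
  obtain ⟨r, rfl⟩ : ∃ r : List Bool, w = r.reverse := ⟨w.reverse, by simp⟩
  have key : ∀ s : List Bool, s <:+ r.reverse ↔ s.reverse <+: r := by
    intro s
    rw [← List.reverse_prefix, List.reverse_reverse]
  unfold psi0 T10_ind
  simp only [key]
  rcases r with _ | ⟨b1, _ | ⟨b2, _ | ⟨b3, _ | ⟨b4, r⟩⟩⟩⟩
  · simp
  · simp
  · simp
  · rcases b1 <;> rcases b2 <;> rcases b3 <;> simp [List.cons_prefix_cons]
  · rcases b1 <;> rcases b2 <;> rcases b3 <;> rcases b4 <;> simp [List.cons_prefix_cons]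

theorem T10_desc (P : Tri) (w s : List Bool) :
    zl P s w = len (desc (w ++ s) P).2.2 := rfl

theorem T10_one (P : Tri) (R : ℝ) (hS : {w : List Bool | len (desc w P).2.2 ≤ R}.Finite)
    (s : List Bool) :
    ∑ w ∈ hS.toFinset, T10_ind s w = cn (zl P s) R := by
  classical
  unfold T10_ind cn
  have h1 : {w : List Bool | len (desc w P).2.2 ≤ R} ∩ {w | s <:+ w} =
      (fun w => w ++ s) '' {w : List Bool | zl P s w ≤ R} := by
    ext w
    constructor
    · rintro ⟨hw, u, rfl⟩
      exact ⟨u, hw, rfl⟩
    · rintro ⟨u, hu, rfl⟩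
      exact ⟨hu, List.suffix_append u s⟩
  have h2 : ({w : List Bool | zl P s w ≤ R}).ncard =
      ({w : List Bool | len (desc w P).2.2 ≤ R} ∩ {w | s <:+ w}).ncard := by
    rw [h1, Set.ncard_image_of_injective]
    intro u v h
    exact List.append_cancel_right h
  have h3 : ({w : List Bool | len (desc w P).2.2 ≤ R} ∩ {w | s <:+ w}) =
      ((hS.toFinset.filter fun w => s <:+ w : Finset (List Bool)) : Set (List Bool)) := by
    ext w
    simp
  rw [h2, h3, Set.ncard_coe_finset, Finset.sum_boole]

theorem T10 : T10_stmt := by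
  intro P hfin R
  have hS := hfin R
  rw [finsum_mem_eq_finite_toFinset_sum _ hS, Finset.sum_congr rfl fun w _ => T10_psi0 w,
    Finset.sum_sub_distrib, Finset.sum_add_distrib, Finset.sum_add_distrib, Finset.sum_add_distrib,
    Finset.sum_add_distrib]
  rw [T10_one P R hS, T10_one P R hS, T10_one P R hS, T10_one P R hS, T10_one P R hS,
    T10_one P R hS]

end SF
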