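import Pool.Agent.helper33.SF.Spec

/-!
# Row sf:CHN: a chain of good approximations
-/

set_option autoImplicit false

open Finset

namespace Pool.Agent.SF

/-- the properties of a pair -/
def CHN_G (E : ℕ) (p : ℕ × ℕ) : Prop :=
  1 ≤ p.2 ∧ Nat.Coprime p.1 p.2 ∧ (p.1 : ℝ) ≤ p.2 * √(E : ℝ) + 1 ∧
    |(p.1 : ℝ) ^ 2 - E * (p.2 : ℝ) ^ 2| ≤ 2 * √(E : ℝ)

theorem CHN_sqrt (E : ℕ) (hE : 1 ≤ E) : (1 : ℝ) ≤ √(E : ℝ) ∧ √(E : ℝ) * √(E : ℝ) = E := by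
  have h1 : (1 : ℝ) ≤ E := by exact_mod_cast hE
  constructor
  · rw [Real.one_le_sqrt]
    exact h1
  · exact Real.mul_self_sqrt (by linarith)

theorem CHN_dir (hDIR : DIR_stmt) (E n : ℕ) (hE : 1 ≤ E) (hn : 1 ≤ n) :
    ∃ p : ℕ × ℕ, CHN_G E p ∧ p.2 ≤ n ∧ |(p.1 : ℝ) - p.2 * √(E : ℝ)| ≤ 1 / (n + 1) := by
  obtain ⟨x, y, hy1, hyn, hc, hxy⟩ := hDIR E n hE hn
  obtain ⟨hs1, hs2⟩ := CHN_sqrt E hE
  set s : ℝ := √(E : ℝ) with hs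
  have hn' : (1 : ℝ) ≤ n := by exact_mod_cast hn
  have hy' : (1 : ℝ) ≤ y := by exact_mod_cast hy1
  have hyn' : (y : ℝ) ≤ n := by exact_mod_cast hyn
  have hn1 : (0 : ℝ) < n + 1 := by linarith
  have hinv : 1 / ((n : ℝ) + 1) ≤ 1 := by
    rw [div_le_one hn1]
    linarith
  have hab := abs_le.1 hxy
  refine ⟨(x, y), ⟨hy1, hc, ?_, ?_⟩, hyn, hxy⟩
  · show (x : ℝ) ≤ y * s + 1
    linarith
  · show |(x : ℝ) ^ 2 - E * (y : ℝ) ^ 2| ≤ 2 * s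
    have hx0 : (0 : ℝ) ≤ x := Nat.cast_nonneg x
    have e1 : (x : ℝ) ^ 2 - E * (y : ℝ) ^ 2 = (x - y * s) * (x + y * s) := by
      rw [← hs2]
      ring
    have h0 : (0 : ℝ) ≤ x + y * s := by positivity
    have h1 : (x : ℝ) + y * s ≤ 2 * n * s + 1 := by
      have : (y : ℝ) * s ≤ n * s := mul_le_mul_of_nonneg_right hyn' (by linarith)
      linarith
    rw [e1, abs_mul, abs_of_nonneg h0]
    calc |(x : ℝ) - y * s| * (x + y * s) ≤ 1 / (n + 1) * (2 * n * s + 1) :=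
          mul_le_mul hxy h1 h0 (by positivity)
      _ ≤ 2 * s := by
          rw [one_div, inv_mul_le_iff₀ hn1]
          nlinarith

theorem CHN_step (hDIR : DIR_stmt) (E : ℕ) (hE : 1 ≤ E) (hsq : ¬ IsSquare E) (p : ℕ × ℕ) (hp : CHN_G E p) :
    ∃ p' : ℕ × ℕ, CHN_G E p' ∧ (p'.2 : ℝ) ≤ (2 * √(E : ℝ) + 2) * p.2 ∧
      |(p'.1 : ℝ) - p'.2 * √(E : ℝ)| < |(p.1 : ℝ) - p.2 * √(E : ℝ)| := by
  obtain ⟨x, y⟩ := p
  obtain ⟨hy1, hc, hx, hb⟩ := hp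
  obtain ⟨hs1, hs2⟩ := CHN_sqrt E hE
  set s : ℝ := √(E : ℝ) with hs
  simp only at hy1 hc hx hb
  show ∃ p' : ℕ × ℕ, CHN_G E p' ∧ (p'.2 : ℝ) ≤ (2 * s + 2) * y ∧ |(p'.1 : ℝ) - p'.2 * s| < |(x : ℝ) - y * s|
  have hy' : (1 : ℝ) ≤ y := by exact_mod_cast hy1
  have hx0 : (0 : ℝ) ≤ x := Nat.cast_nonneg x
  have hsum : (0 : ℝ) < x + y * s := by positivity
  have hne : ((x : ℤ) ^ 2 - E * (y : ℤ) ^ 2) ≠ 0 := by
    intro h0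
    apply hsq
    have h1 : x ^ 2 = E * y ^ 2 := by
      have : (x : ℤ) ^ 2 = E * (y : ℤ) ^ 2 := by linarith
      exact_mod_cast this
    have h2 : y ^ 2 ∣ x ^ 2 := ⟨E, by rw [h1]; ring⟩
    have h3 : y ∣ x := (Nat.pow_dvd_pow_iff two_ne_zero).1 h2
    obtain ⟨c, rfl⟩ := h3
    refine ⟨c, ?_⟩
    have h4 : y ^ 2 * (c * c) = y ^ 2 * E := by
      rw [mul_comm (y ^ 2) E, ← h1]
      ring
    exact (Nat.eq_of_mul_eq_mul_left (by positivity) h4).symm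
  have h1 : (1 : ℝ) ≤ |(x : ℝ) ^ 2 - E * (y : ℝ) ^ 2| := by
    have h2 : (1 : ℤ) ≤ |(x : ℤ) ^ 2 - E * (y : ℤ) ^ 2| := Int.one_le_abs hne
    have h3 : ((1 : ℤ) : ℝ) ≤ ((|(x : ℤ) ^ 2 - E * (y : ℤ) ^ 2| : ℤ) : ℝ) := by exact_mod_cast h2
    push_cast at h3
    exact h3
  have e1 : (x : ℝ) ^ 2 - E * (y : ℝ) ^ 2 = (x - y * s) * (x + y * s) := by
    rw [← hs2]
    ring
  rw [e1, abs_mul, abs_of_pos hsum] at h1
  set δ : ℝ := |(x : ℝ) - y * s| with hδ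
  have hδ0 : 0 < δ := by
    by_contra hcon
    have : δ * (x + y * s) ≤ 0 := mul_nonpos_of_nonpos_of_nonneg (not_lt.1 hcon) hsum.le
    linarith
  have hinv : 1 / δ ≤ x + y * s := by
    rw [div_le_iff₀ hδ0]
    linarith
  have hn0 : 1 ≤ ⌈1 / δ⌉₊ := Nat.one_le_iff_ne_zero.2 (Nat.ceil_pos.2 (by positivity)).ne'
  obtain ⟨p', hp', hpn, hpd⟩ := CHN_dir hDIR E ⌈1 / δ⌉₊ hE hn0
  refine ⟨p', hp', ?_, ?_⟩
  · have h3 : (⌈1 / δ⌉₊ : ℝ) < 1 / δ + 1 := Nat.ceil_lt_add_one (by positivity)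
    have h4 : (p'.2 : ℝ) ≤ (⌈1 / δ⌉₊ : ℝ) := by exact_mod_cast hpn
    nlinarith
  · have h3 : 1 / δ ≤ (⌈1 / δ⌉₊ : ℝ) := Nat.le_ceil _
    have h5 : (0 : ℝ) < (⌈1 / δ⌉₊ : ℝ) + 1 := by positivity
    refine lt_of_le_of_lt hpd ?_
    rw [div_lt_iff₀ h5]
    rw [div_le_iff₀ hδ0] at h3
    nlinarith

theorem CHN (hDIR : DIR_stmt) : CHN_stmt := by
  intro E hE hsq
  obtain ⟨hs1, hs2⟩ := CHN_sqrt E hE
  obtain ⟨p0, hp0, hp0n, -⟩ := CHN_dir hDIR E 1 hE le_rfl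
  choose! F hF1 hF2 hF3 using CHN_step hDIR E hE hsq
  let P : ℕ → ℕ × ℕ := fun i => F^[i] p0
  have hP0 : P 0 = p0 := rfl
  have hPs : ∀ i, P (i + 1) = F (P i) := fun i => Function.iterate_succ_apply' F i p0
  have hG : ∀ i, CHN_G E (P i) := by
    intro i
    induction i with
    | zero => rw [hP0]; exact hp0
    | succ i ih => rw [hPs]; exact hF1 _ ih
  have hY : ∀ i, ((P i).2 : ℝ) ≤ (2 * √(E : ℝ) + 2) ^ i := by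
    intro i
    induction i with
    | zero =>
      rw [hP0, pow_zero]
      exact_mod_cast hp0n
    | succ i ih =>
      rw [hPs, pow_succ, mul_comm]
      refine (hF2 _ (hG i)).trans ?_
      exact mul_le_mul_of_nonneg_left ih (by positivity)
  refine ⟨fun i => (P i).1, fun i => (P i).2, fun i => ⟨(hG i).1, (hG i).2.1, hY i, (hG i).2.2.1, (hG i).2.2.2, ?_⟩⟩
  show |((P (i + 1)).1 : ℝ) - (P (i + 1)).2 * √(E : ℝ)| < |((P i).1 : ℝ) - (P i).2 * √(E : ℝ)|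
  rw [hPs]
  exact hF3 _ (hG i)

end Pool.Agent.SF
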